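import Pool.Agent.H72.NS.N10

/-!
# Between two no-slip walls all shear flows are stopped in arbitrarily short time (d ≥ 3)

The walls are the two hyperplanes `x j = -a` and `x j = a` of `ℝ^d`, `d ≥ 3`, and `Ω` is any bounded
domain between them. If its uncontrolled boundary lies on the walls, then a trajectory of the
controlled system in `Ω` is a solution of the Navier-Stokes equations in `Ω` which vanishes on the
part of the walls in the (closure of the) domain; the control is the trace of the flow on the rest of
the boundary. The initial velocity is `U₀ (x j)`, with any square integrable profile `U₀` parallel to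
the walls.

The components of the profile can point in all directions parallel to the walls, and then they
cannot be stopped independently: a flow which stops the component `k` with the help of the
direction `l` is transported by the component `l`. The component `k` is the sum of the series
`∑ m, ∂ₓᵐ v(t, x_l) Z_m(t, x_j)`, where `v` is a solution of the heat equation equal to `1` at first and
to `0` later, and `(∂ₜ - ∂_y²) Z_m = -U_l Z_{m-1}`, with zero boundary values on both walls.
-/

set_option autoImplicit false

namespace Pool.Agent.Results.MP_79abb3_an.AllShearFlows

open Set MeasureTheory Pool.Agent.Q61.NC Pool.Agent.H72.NS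

/-- Let `d ≥ 3`, let `j` be a coordinate of `ℝ^d`, `a, T > 0`, and let `U₀`, square integrable on
`[-a, a]`, be a profile with values parallel to the hyperplane `x j = 0`. Let `Ω` be a bounded
measurable subset of the slab `|x j| ≤ a`. Then the shear flow `U₀ (x j)` is brought to rest in `Ω` at
time `T`, exactly, by a classical solution of the Navier-Stokes equations which vanishes on both
walls. The pressure is zero. -/
theorem result : ∀ (d : ℕ) (j : Fin d), 3 ≤ d → ∀ a T : ℝ, 0 < a → 0 < T →
    ∀ U₀ : ℝ → Sp d, (∀ y, U₀ y j = 0) → MemLp U₀ 2 (volume.restrict (Icc (-a) a)) →
    ∀ Ω : Set (Sp d), (∀ x ∈ Ω, |x j| ≤ a) → MeasurableSet Ω → Bornology.IsBounded Ω →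
    ∃ u : ℝ → Sp d → Sp d, Stopped j a T Ω (fun x => U₀ (x j)) u (fun _ _ => 0) :=
  fun _ j hd _ _ ha hT _ h0 hU _ hΩ hΩm hbd => shear_stops hd j ha hT h0 hU hΩ hΩm hbd

end Pool.Agent.Results.MP_79abb3_an.AllShearFlows
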