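import Pool.Agent.H74.CD.T.BDL
import Pool.Agent.H74.CD.T.CEL
import Pool.Agent.H74.CD.T.COI
import Pool.Agent.H74.CD.T.CPL
import Pool.Agent.H74.CD.T.CPL1
import Pool.Agent.H74.CD.T.CSQ
import Pool.Agent.H74.CD.T.DIV
import Pool.Agent.H74.CD.T.ENE
import Pool.Agent.H74.CD.T.FIN
import Pool.Agent.H74.CD.T.GRN
import Pool.Agent.H74.CD.T.HH
import Pool.Agent.H74.CD.T.IBP
import Pool.Agent.H74.CD.T.LAP
import Pool.Agent.H74.CD.T.LAPI
import Pool.Agent.H74.CD.T.LIM
import Pool.Agent.H74.CD.T.MAIN
import Pool.Agent.H74.CD.T.NSI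
import Pool.Agent.H74.CD.T.NSR
import Pool.Agent.H74.CD.T.ODE
import Pool.Agent.H74.CD.T.ONE
import Pool.Agent.H74.CD.T.PCO

/-!
# In closed rectangular ducts parallel flows cannot be stopped by parallel flows

The domain is the piece `(0,A) x (0,B) x (-c,c)` of a rectangular duct; its four walls are not controlled, its two
ends are. A parallel solution of the Navier-Stokes equations in the piece which vanishes on the walls is driven by
an arbitrary time dependent pressure gradient. In a round pipe parallel solutions stop every smooth axially symmetric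
parallel flow, for instance Poiseuille flow, in arbitrarily short time. In a rectangular duct this is
impossible, however long the time is.

The reason: the pressure gradient `g` must satisfy `∫ e^{λ t} g(t) dt = - κ/λ` for all eigenvalues `λ = π² (m²/A² + n²/B²)` of
the odd modes (finitely many excepted), and the sum of `1/λ` over the DISTINCT eigenvalues diverges (there are at
least `c X / log X` of them below `X`), while in a round pipe it converges.
-/

set_option autoImplicit false

namespace Pool.Agent.Results.MP_79abb3_an.ClosedDucts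

open Set Pool.Agent.H74.CD

/-- Let `u`, `p` be a parallel solution on `[0,T]` of the Navier-Stokes equations in the piece
`(0,A) x (0,B) x (-c,c)` of a duct which vanishes on the four walls, and let `u(T) = 0`. Suppose that the initial
axial velocity has, up to finitely many coefficients, the same double sine coefficients as `κ P`, where `P` is the
Poiseuille profile of the rectangle (if `κ ≠ 0`). Then `κ = 0` and `u = 0` on `[0,T]`. -/
theorem result : ∀ (A B c T : ℝ), 0 < A → 0 < B → 0 < c → 0 < T →
    ∀ (u : ℝ → (Fin 3 → ℝ) → (Fin 3 → ℝ)) (p : ℝ → (Fin 3 → ℝ) → ℝ), Parallel A B c T u p →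
    (∀ x ∈ Duct A B c, u T x = 0) →
    ∀ (P : ℝ → ℝ → ℝ) (κ : ℝ) (F : Finset (ℕ × ℕ)), (κ ≠ 0 → Pois A B P) →
    (∀ m n : ℕ, 1 ≤ m → 1 ≤ n → (m, n) ∉ F →
      coef A B m n (fun x y => u 0 ![x, y, 0] 2) = κ * coef A B m n P) →
    κ = 0 ∧ ∀ t ∈ Icc 0 T, ∀ x ∈ Walled A B c, u t x = 0 := by
  have lim := T.LIM.main (T.ODE.main (T.GRN.main T.IBP.main)) T.CEL.main T.BDL.main
  exact T.FIN.main T.NSI.main (T.NSR.main T.NSI.main)
    (T.MAIN.main (T.HH.main lim T.ONE.main) T.ONE.main (T.PCO.main lim) (T.CPL.main T.CPL1.main)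
      (T.LAP.main T.LAPI.main) (T.DIV.main (T.COI.main T.ENE.main) T.CSQ.main))

end Pool.Agent.Results.MP_79abb3_an.ClosedDucts
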