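import Pool.Agent.H74.OD.T.ONED
import Pool.Agent.H74.OD.T.PAR
import Pool.Agent.H74.OD.T.INI
import Pool.Agent.H74.OD.T.DIS
import Pool.Agent.H74.TR.T.INI
import Pool.Agent.H74.TR.T.DIS
import Pool.Agent.H74.TR.T.BD1
import Pool.Agent.H74.TR.T.SPR
import Pool.Agent.H74.TR.T.CHV
import Pool.Agent.H74.TR.T.REG
import Pool.Agent.H74.TR.T.EQS
import Pool.Agent.H74.TR.T.FIN
import Pool.Agent.H74.TR.T.POI

/-!
# Poiseuille flow in ducts of equilateral triangular cross-section is stopped in arbitrarily short time

All three sides of the duct are no-slip walls. The flow below is defined in the whole infinite duct; its restriction to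
a bounded piece is a trajectory of the controlled system with control (trace of the flow) on the two ends only.
In ducts with rectangular cross-section Poiseuille flow is never stopped by parallel flows (`ClosedDucts`).
-/

set_option autoImplicit false

namespace Pool.Agent.Results.MP_79abb3_an.TriangularDucts

open Set MeasureTheory Pool.Agent.H74.TR

/-- Let `h, T > 0`, let `ell h i x`, `i = 0, 1, 2`, be the distances of `(x_0, x_1)` to the sides of the equilateral
triangle of height `h`. (1) For every odd function `G`, square integrable on `(0, h/2)`, and (2) for Poiseuille flow, a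
multiple of the product of the three distances, the parallel flow with axial velocity `∑ i, G (ell h i x - h / 2)`
resp. `κ ell_0 ell_1 ell_2` is brought to rest at time `T`, exactly, by a parallel solution of the Navier-Stokes
equations in the duct which vanishes on the three walls. -/
theorem result :
    (∀ (h T : ℝ) (G : ℝ → ℝ), 0 < h → 0 < T → (∀ s, G (-s) = -G s) →
      MemLp G 2 (volume.restrict (Ioo 0 (h / 2))) →
      ∃ (u : ℝ → (Fin 3 → ℝ) → (Fin 3 → ℝ)) (p : ℝ → (Fin 3 → ℝ) → ℝ),
        Stopped h T (fun x => ∑ i, G (ell h i x - h / 2)) u p) ∧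
    (∀ h T κ : ℝ, 0 < h → 0 < T →
      ∃ (u : ℝ → (Fin 3 → ℝ) → (Fin 3 → ℝ)) (p : ℝ → (Fin 3 → ℝ) → ℝ),
        Stopped h T (fun x => κ * (ell h 0 x * ell h 1 x * ell h 2 x)) u p) := by
  have hF : S_FIN := T.FIN.main (T.SPR.main Pool.Agent.H74.OD.T.ONED.main)
    (T.INI.main (Pool.Agent.H74.OD.T.INI.main Pool.Agent.H74.OD.T.PAR.main))
    (T.DIS.main (Pool.Agent.H74.OD.T.DIS.main Pool.Agent.H74.OD.T.PAR.main)) T.BD1.main T.CHV.main T.REG.main (T.EQS.main T.REG.main)
  exact ⟨hF, T.POI.main hF⟩

end Pool.Agent.Results.MP_79abb3_an.TriangularDucts
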